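import Pool.Agent.BED.Stmts
import Pool.Agent.Helper69_BEO.DEO
import Pool.Agent.Helper44_BEO.EVO

/-!
# Squad BED, row RDE: radial functions on the disc orthogonal to the powers of `|x|²`
-/

set_option autoImplicit false

namespace Pool.Agent.BED.H6

open Set Filter Topology MeasureTheory
open scoped InnerProductSpace ENNReal ComplexConjugate
open Pool.Agent.BE01
open Pool.Agent.BEO (Pl BB ev lap rho)
open Pool.Agent.BED

noncomputable section

/-- the complex coordinate -/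
def zz (x : En 2) : ℂ := Complex.orthonormalBasisOneI.repr.symm x

theorem zz_eq (x : En 2) : zz x = (x 0 : ℂ) + (x 1 : ℂ) * Complex.I := by
  unfold zz
  rw [Complex.orthonormalBasisOneI_repr_symm_apply]

theorem norm_zz (x : En 2) : ‖zz x‖ = ‖x‖ := by
  unfold zz
  exact LinearIsometryEquiv.norm_map _ _

theorem zz_cont : Continuous zz := by
  unfold zz
  exact LinearIsometryEquiv.continuous _

/-- the rotation -/
def rt (a : Circle) : En 2 ≃ₗᵢ[ℝ] En 2 :=
  (Complex.orthonormalBasisOneI.repr.symm.trans (rotation a)).trans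
    Complex.orthonormalBasisOneI.repr

theorem zz_rt (a : Circle) (x : En 2) : zz (rt a x) = a * zz x := by
  unfold zz rt
  simp only [LinearIsometryEquiv.trans_apply, LinearIsometryEquiv.symm_apply_apply]
  rw [rotation_apply]

theorem mp (g : En 2 ≃ₗᵢ[ℝ] En 2) (R : ℝ) : MeasurePreserving g (mu (BB 2 R)) (mu (BB 2 R)) := by
  have h1 : g ⁻¹' (BB 2 R) = BB 2 R := by
    ext x
    simp only [Set.mem_preimage, BB, Metric.mem_ball, dist_zero_right,
      LinearIsometryEquiv.norm_map]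
  have h2 := g.measurePreserving.restrict_preimage
    (s := BB 2 R) (by unfold BB; exact Metric.isOpen_ball.measurableSet)
  rw [h1] at h2
  exact h2

/-- the functional on the monomials -/
def La {R : ℝ} (u : Lp ℝ 2 (mu (BB 2 R))) (a b : ℕ) : ℂ :=
  ∫ x, (u x : ℂ) * (zz x ^ a * conj (zz x) ^ b) ∂(mu (BB 2 R))

theorem la_rot {R : ℝ} (u : Lp ℝ 2 (mu (BB 2 R))) (hu : Rad R u) (a b : ℕ) (w : Circle) :
    La u a b = ((w : ℂ) ^ a * conj (w : ℂ) ^ b) * La u a b := by
  have h1 := hu (rt w) (mem_univ _)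
  have h2 : ∫ x, (u (rt w x) : ℂ) * (zz (rt w x) ^ a * conj (zz (rt w x)) ^ b) ∂(mu (BB 2 R)) =
      La u a b := by
    unfold La
    exact (mp (rt w) R).integral_comp (rt w).toHomeomorph.measurableEmbedding
      (fun x => (u x : ℂ) * (zz x ^ a * conj (zz x) ^ b))
  have h3 : ∫ x, (u (rt w x) : ℂ) * (zz (rt w x) ^ a * conj (zz (rt w x)) ^ b) ∂(mu (BB 2 R)) =
      ∫ x, ((w : ℂ) ^ a * conj (w : ℂ) ^ b) *
        ((u x : ℂ) * (zz x ^ a * conj (zz x) ^ b)) ∂(mu (BB 2 R)) := by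
    refine integral_congr_ae ?_
    filter_upwards [h1] with x hx
    rw [hx, zz_rt, map_mul, mul_pow, mul_pow]
    ring
  rw [h2, integral_const_mul] at h3
  exact h3

theorem la_ne {R : ℝ} (u : Lp ℝ 2 (mu (BB 2 R))) (hu : Rad R u) (a b : ℕ) (hab : a ≠ b) :
    La u a b = 0 := by
  have hd : ((a : ℝ) - b) ≠ 0 := sub_ne_zero.2 (by exact_mod_cast hab)
  obtain ⟨θ, hθ⟩ : ∃ θ : ℝ, θ = Real.pi / ((a : ℝ) - b) := ⟨_, rfl⟩
  have h1 := la_rot u hu a b (Circle.exp θ)
  have h2 : ((Circle.exp θ : Circle) : ℂ) ^ a * conj ((Circle.exp θ : Circle) : ℂ) ^ b = -1 := by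
    rw [Circle.coe_exp, ← Complex.exp_conj, ← Complex.exp_nat_mul, ← Complex.exp_nat_mul,
      ← Complex.exp_add, map_mul, Complex.conj_I, Complex.conj_ofReal]
    have h3 : (a : ℂ) * ((θ : ℂ) * Complex.I) + (b : ℂ) * ((θ : ℂ) * -Complex.I) =
        Real.pi * Complex.I := by
      have h4 : (θ : ℂ) * ((a : ℂ) - b) = Real.pi := by
        rw [hθ]
        push_cast
        have h5 : ((a : ℂ) - b) ≠ 0 := by exact_mod_cast hd
        field_simp
      calc (a : ℂ) * ((θ : ℂ) * Complex.I) + (b : ℂ) * ((θ : ℂ) * -Complex.I) =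
          ((θ : ℂ) * ((a : ℂ) - b)) * Complex.I := by ring
        _ = Real.pi * Complex.I := by rw [h4]
    rw [h3, Complex.exp_pi_mul_I]
  rw [h2] at h1
  have h3 : (2 : ℂ) * La u a b = 0 := by linear_combination h1
  rcases mul_eq_zero.1 h3 with h | h
  · exact absurd h two_ne_zero
  · exact h

theorem ev_rho_pow (b : ℕ) (x : En 2) : ev (rho 2 ^ b) x = (‖x‖ ^ 2) ^ b := by
  have h := (Pool.Agent.BEO.H44.evo 2).2.2.2.2.2.1 x
  rw [← h]
  unfold ev
  rw [map_pow]

theorem la_eq {R : ℝ} (u : Lp ℝ 2 (mu (BB 2 R))) (a : ℕ)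
    (h : ∫ x, u x * ev (rho 2 ^ a) x ∂(mu (BB 2 R)) = 0) : La u a a = 0 := by
  unfold La
  have h1 : (fun x => (u x : ℂ) * (zz x ^ a * conj (zz x) ^ a)) =
      fun x => ((u x * ev (rho 2 ^ a) x : ℝ) : ℂ) := by
    funext x
    rw [ev_rho_pow, ← mul_pow, Complex.mul_conj, Complex.normSq_eq_norm_sq, norm_zz]
    push_cast
    ring
  rw [h1, integral_complex_ofReal, h, Complex.ofReal_zero]

/-- every real polynomial is a polynomial of `z` and its conjugate -/
theorem exq (P : Pl 2) : ∃ Q : MvPolynomial (Fin 2) ℂ, ∀ x : En 2,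
    ((ev P x : ℝ) : ℂ) = MvPolynomial.eval ![zz x, conj (zz x)] Q := by
  obtain ⟨-, -, hadd, hmul, hC, -, hX, -⟩ := Pool.Agent.BEO.H44.evo 2
  induction P using MvPolynomial.induction_on with
  | C a =>
    refine ⟨MvPolynomial.C (a : ℂ), fun x => ?_⟩
    rw [hC, MvPolynomial.eval_C]
  | add p q hp hq =>
    obtain ⟨Q1, h1⟩ := hp
    obtain ⟨Q2, h2⟩ := hq
    refine ⟨Q1 + Q2, fun x => ?_⟩
    rw [hadd, Complex.ofReal_add, h1, h2, map_add]
  | mul_X p i hp =>
    obtain ⟨Q1, h1⟩ := hp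
    have hi : ∃ L : MvPolynomial (Fin 2) ℂ, ∀ x : En 2,
        ((x i : ℝ) : ℂ) = MvPolynomial.eval ![zz x, conj (zz x)] L := by
      fin_cases i
      · refine ⟨MvPolynomial.C (1 / 2) * (MvPolynomial.X 0 + MvPolynomial.X 1), fun x => ?_⟩
        rw [map_mul, map_add, MvPolynomial.eval_C, MvPolynomial.eval_X, MvPolynomial.eval_X]
        simp only [Matrix.cons_val_zero, Matrix.cons_val_one]
        rw [zz_eq, map_add, map_mul, Complex.conj_ofReal, Complex.conj_ofReal, Complex.conj_I]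
        show ((x 0 : ℝ) : ℂ) = _
        ring
      · refine ⟨MvPolynomial.C (-Complex.I / 2) * (MvPolynomial.X 0 - MvPolynomial.X 1),
          fun x => ?_⟩
        rw [map_mul, map_sub, MvPolynomial.eval_C, MvPolynomial.eval_X, MvPolynomial.eval_X]
        simp only [Matrix.cons_val_zero, Matrix.cons_val_one]
        rw [zz_eq, map_add, map_mul, Complex.conj_ofReal, Complex.conj_ofReal, Complex.conj_I]
        show ((x 1 : ℝ) : ℂ) = _
        linear_combination (x 1 : ℂ) * Complex.I_sq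
    obtain ⟨L, hL⟩ := hi
    refine ⟨Q1 * L, fun x => ?_⟩
    rw [hmul, Complex.ofReal_mul, h1, hX, hL, map_mul]

theorem int_mon {R : ℝ} (u : Lp ℝ 2 (mu (BB 2 R))) (a b : ℕ) :
    Integrable (fun x => (u x : ℂ) * (zz x ^ a * conj (zz x) ^ b)) (mu (BB 2 R)) := by
  have hfin : IsFiniteMeasure (mu (BB 2 R)) := ⟨by
    unfold mu
    rw [Measure.restrict_apply_univ]
    exact measure_ball_lt_top⟩
  have h1 : Integrable (fun x => (u x : ℂ)) (mu (BB 2 R)) :=
    ((Lp.memLp u).integrable (by norm_num)).ofReal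
  refine h1.mul_bdd (c := R ^ a * R ^ b)
    (((zz_cont.pow a).mul ((Complex.continuous_conj.comp zz_cont).pow b)).aestronglyMeasurable) ?_
  unfold mu BB
  rw [ae_restrict_iff' Metric.isOpen_ball.measurableSet]
  refine Eventually.of_forall fun x hx => ?_
  have hx' : ‖x‖ ≤ R := by
    rw [Metric.mem_ball, dist_zero_right] at hx
    exact hx.le
  rw [norm_mul, norm_pow, norm_pow, Complex.norm_conj, norm_zz]
  exact mul_le_mul (pow_le_pow_left₀ (norm_nonneg x) hx' a)
    (pow_le_pow_left₀ (norm_nonneg x) hx' b) (by positivity)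
    (pow_nonneg ((norm_nonneg x).trans hx') a)

/-- row RDE -/
theorem rde : RdeStmt := by
  intro R u hR hu hb
  have hla : ∀ a b : ℕ, La u a b = 0 := by
    intro a b
    by_cases hab : a = b
    · rw [← hab]
      exact la_eq u a (hb a)
    · exact la_ne u hu a b hab
  apply Pool.Agent.BEO.H69.deo 2 R u hR
  intro P
  obtain ⟨Q, hQ⟩ := exq P
  have h1 : ((∫ x, u x * ev P x ∂(mu (BB 2 R)) : ℝ) : ℂ) = 0 := by
    rw [← integral_complex_ofReal]
    have h2 : (fun x => ((u x * ev P x : ℝ) : ℂ)) = fun x =>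
        ∑ d ∈ Q.support, Q.coeff d * ((u x : ℂ) * (zz x ^ d 0 * conj (zz x) ^ d 1)) := by
      funext x
      rw [Complex.ofReal_mul, hQ, MvPolynomial.eval_eq', Finset.mul_sum]
      refine Finset.sum_congr rfl fun d _ => ?_
      rw [Fin.prod_univ_two]
      simp only [Matrix.cons_val_zero, Matrix.cons_val_one]
      ring
    rw [h2, integral_finsetSum _ fun d _ => (int_mon u _ _).const_mul _]
    refine Finset.sum_eq_zero fun d _ => ?_
    rw [integral_const_mul]
    have h3 : ∫ x, (u x : ℂ) * (zz x ^ d 0 * conj (zz x) ^ d 1) ∂(mu (BB 2 R)) = 0 :=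
      hla (d 0) (d 1)
    rw [h3, mul_zero]
  exact_mod_cast h1

end

end Pool.Agent.BED.H6
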